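import Pool.Agent.helper79.SX.Spec

/-!
# Module BTB of project sx: the tables of the empty sieve
-/

set_option autoImplicit false

open Finset ArithmeticFunction

namespace Pool.Agent.SX

private lemma BTB_all (p : ℕ → Bool) : ∀ n : ℕ, allB n p = true → ∀ i < n, p i = true := by
  intro n
  induction n with
  | zero => intro _ i hi; omega
  | succ n ih =>
    intro h i hi
    have h' : (p n && allB n p) = true := h
    rw [Bool.and_eq_true] at h'
    rcases Nat.lt_succ_iff_lt_or_eq.1 hi with h1 | h1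
    · exact ih h'.2 i h1
    · rw [h1]; exact h'.1

theorem BTB (hBAS : BAS_stmt) : BTB_stmt := by
  intro L hL
  have key : ∀ i, i ≤ 900 → Up 28 (i * 1) ((dig L i : ℝ) / 2 ^ 40) ∧
      Lo 28 (i * 1) ((dig L i : ℝ) / 2 ^ 40) := by
    intro i hi
    have h1 := BTB_all (fun i => Nat.ble (2 ^ 400) (dig L i ^ 10 * 2 ^ i)) 901 hL i (by omega)
    have h2 : 2 ^ 400 ≤ dig L i ^ 10 * 2 ^ i := Nat.le_of_ble_eq_true h1
    have h3 : ((2 : ℝ) ^ 400) ≤ (dig L i : ℝ) ^ 10 * 2 ^ i := by exact_mod_cast h2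
    refine hBAS (i * 1) _ (by positivity) ?_
    rw [mul_one, div_pow, div_mul_eq_mul_div, le_div_iff₀ (by positivity), one_mul, ← pow_mul]
    exact h3
  exact ⟨fun i hi => (key i hi).2, fun i _ hi => (key i hi).1⟩

end Pool.Agent.SX
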